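import Pool.Agent.MP_ee8c61_ag.TX.Spec
import Pool.Agent.MP_ee8c61_ag.TW.RCht

/-! The residue of a logarithmic form is a section on the divisor, on a model for any `f`. -/

namespace Pool.Agent.MP_ee8c61_ag.N3.TX

open H59 hiding pd
open MvPolynomial M3 M3E
open Pool.Agent.MP_ee8c61_ag.TC (Indep red SSs SPert)

noncomputable section

variable [Base]

theorem rCh2 : OfCh2 := fun E N r q F j f M o P u m c t h hF hP ho hu hL => by
  have B := (E.bas N _ M h).toBas1
  have K := fun b => TC.RCht.key h B (E.nb N _ M h) hF hP ho hu hL (b := b)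
  refine ⟨fun V _ hV b hb => ?_, ?_⟩
  · obtain ⟨U, g, h1, h2, -, h4⟩ := K b fun g hg => hV (hb g hg)
    have := add_mem (B.small V o hV _ h4).1 (hb g h2)
    rw [sub_add_cancel] at this
    exact (h1 V hb).mem_iff.1 this
  · obtain ⟨b, hb⟩ := h.cov _ (B.ov_v o)
    obtain ⟨U, g, h1, -, h3, h4⟩ := K b hb
    obtain ⟨g0, g1⟩ := (M.v o).un_O.1 h3
    obtain ⟨a0, a1⟩ := (M.v o).un_O.1
      (((M.v o).un_O.2 ((M.v o).eq_of_sub g0 g1 (by rwa [zero_add]))).cancel (h1 _ hb))
    have s0 := left_ne_zero_of_mul a0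
    rw [(M.v o).mul _ _ s0 (M.mon_ne b _), B.v_mon b o _ hb] at a1
    refine ⟨fun e => s0 (by rw [e, zero_div]), ?_⟩
    simp only [Pi.smul_apply, Pi.add_apply, Mod.kk, M.e_apply, red, ho, if_true, lt_self_iff_false,
      if_false, add_zero, nsmul_eq_mul] at a1
    omega

end

end Pool.Agent.MP_ee8c61_ag.N3.TX
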