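import Pool.Agent.MP_ee8c61_ag.TX.Spec

/-! Functions that are regular where a polynomial does not vanish. -/

namespace Pool.Agent.MP_ee8c61_ag.N3.TX

open M3

namespace RDen

theorem gen {R K : Type} [CommRing R] [IsDomain R] [IsIntegrallyClosed R] [Field K]
    [Algebra R K] [IsFractionRing R K] (F : R) (g : K) (hF : F ≠ 0)
    (h : ∀ V : ValuationSubring K, (∀ p, algebraMap R K p ∈ V) → (algebraMap R K F)⁻¹ ∈ V →
      g ∈ V) : ∃ (e : ℕ) (p : R), algebraMap R K F ^ e * g = algebraMap R K p := by
  have hS : Submonoid.powers F ≤ nonZeroDivisors R :=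
    powers_le_nonZeroDivisors_of_noZeroDivisors hF
  let A : Subalgebra R K := Localization.subalgebra.ofField K (Submonoid.powers F) hS
  have h1 : g ∈ (integralClosure (Subring.closure (A : Set K)) K).toSubring := by
    rw [← iInf_valuationSubring_superset, Subring.mem_iInf]
    intro V
    refine h V.1 (fun p => V.2 (A.algebraMap_mem p)) (V.2 ?_)
    exact ⟨1, F, Submonoid.mem_powers F, by rw [map_one, one_mul]⟩
  have h2 : IsIntegral (Subring.closure (A : Set K)) g := h1
  have h3 : Subring.closure (A : Set K) = A.toSubring := Subring.closure_eq A.toSubring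
  rw [h3] at h2
  have h4 : IsIntegral A g := h2
  obtain ⟨⟨_, e, rfl⟩, hm⟩ :=
    IsIntegral.exists_multiple_integral_of_isLocalization (Submonoid.powers F) g h4
  obtain ⟨p, hp⟩ := IsIntegrallyClosed.isIntegral_iff.1 hm
  refine ⟨e, p, ?_⟩
  rw [hp, Submonoid.smul_def, Algebra.smul_def, map_pow]

end RDen

theorem rDen : SDen := fun _ F g hF h => RDen.gen F g hF h

end Pool.Agent.MP_ee8c61_ag.N3.TX
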