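import Pool.Agent.MP_ee8c61_ag.TX.Spec

/-! The coefficients of a section are sections. -/

namespace Pool.Agent.MP_ee8c61_ag.N3.TX

open H59 hiding pd
open MvPolynomial M3 N3.M3E
open Pool.Agent.MP_ee8c61_ag.TX (up)

namespace RDes

/-- A divisor of a model has adapted derivations. -/
theorem chart [Base] (E : EOut) {N : ℕ} {f : Po N} {M : Mod N} (hM : M.OK f) (o : M.J) :
    ∃ D l0, Bd (M.v o) D l0 ∧ jc D ≠ 0 ∧ (jc D)⁻¹ ∈ (M.v o).F (-M.kk o) := by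
  have B := E.bas N f M hM
  obtain ⟨a, ha⟩ := hM.ne o
  have h1 := (hM.dv a o ha).1
  obtain ⟨l0, h2⟩ := (B.in_v a _ o h1 ((B.thru_v o o).2 rfl)).2.2.1
  obtain ⟨U, h3, h4⟩ := hM.det a
  have h5 : jc (M.S.D a) = U * M.mon a M.kk := by rw [← h4, hM.r]; rfl
  refine ⟨M.S.D a, l0, (E.der N f M hM).ord a o l0 h1 h2, ?_, ?_⟩
  · rw [h5]
    exact mul_ne_zero U.ne_zero (Units.ne_zero _)
  · have h6 := (M.v o).F_mul (h1 _ h3.2 : _ ∈ (M.v o).F 0) ((M.v o).mem_F_self (M.mon a (-M.kk)))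
    rw [B.v_mon a o _ h1, zero_add, B.mon_neg, Units.val_inv_eq_inv_val, ← mul_inv] at h6
    rwa [h5]

end RDes

theorem rDes : OfDes := by
  intro E hU hG hD hS N r F j B B' M W m H hF c1 c2 hM hW hH
  have U := hU N
  obtain ⟨⟨s, p', e1⟩, -⟩ := (@EOut.h B' (E B') _ _ W hW _ H).1 hH
  have f0 : M3.ip N (F j) ≠ 0 := M3B1.ip_ne hF
  obtain ⟨e, p, e2⟩ := hD _ (rename Fin.succ (F j)) (p'.1 : KK (N + 1))
    (fun h => hF (rename_injective _ (Fin.succ_injective N) (h.trans (map_zero _).symm)))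
    fun V h1 h2 => (c2 V).2 ⟨h1, fun i => by
      rw [div_eq_mul_inv]; exact mul_mem (h1 _) h2⟩ p'
  obtain ⟨P, h1, e3⟩ := U.poly p
  have e4 : H * tt N ^ (s + m) = (Polynomial.C (M3.ip N (F j) ^ (e + s))⁻¹ *
      (Polynomial.X ^ m * P)).eval₂ up (tt N) := by
    have e5 : (tt N * up (M3.ip N (F j))) ^ s * H = p'.1 := by
      rw [U.ip, ← map_mul]
      exact e1
    have := (map_ne_zero (up (N := N))).2 f0
    rw [Polynomial.eval₂_mul, Polynomial.eval₂_mul, Polynomial.eval₂_C, Polynomial.eval₂_X_pow,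
      ← e3, ← e2, ← e5, ← U.ip, map_inv₀, map_pow]
    field_simp
    ring
  refine ⟨s, _, e4, fun k => (@EOut.h B (E B) _ _ M hM _ _).2 ⟨?_, fun o => ?_⟩⟩
  · have : (Polynomial.X ^ m * P).coeff k ∈ (M3.ip N).range := by
      rw [Polynomial.coeff_X_pow_mul']
      split_ifs
      exacts [h1 _, zero_mem _]
    obtain ⟨q, hq⟩ := this
    refine ⟨e + s, @pp B N q, ?_⟩
    rw [Polynomial.coeff_C_mul]
    exact (mul_inv_cancel_left₀ (pow_ne_zero _ f0) _).trans hq.symm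
  obtain ⟨D, l0, d1, d2, d3⟩ := @RDes.chart B (E B) _ _ _ hM o
  obtain ⟨d', D', g1, g2, g3⟩ := hG N (M.v o) D l0 d1
  have uF : ∀ g n, g ∈ (M.v o).F n → up g ∈ d'.F n := fun g n hg => by
    have := (g1 (Polynomial.C g) n).2 fun k => by
      rw [Polynomial.coeff_C]
      split_ifs
      exacts [hg, zero_mem _]
    rwa [Polynomial.eval₂_C] at this
  obtain ⟨o1, o2⟩ :=
    (c1 _).1 (@Bas1.ov_v B _ _ (@Bas.toBas1 B _ _ _ (@EOut.bas B (E B) _ _ M hM)) o)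
  have o3 : ∀ q, M3.ip (N + 1) q ∈ d'.F 0 := fun q => by
    obtain ⟨Q, h2, e5⟩ := U.poly q
    rw [e5, g1]
    intro k
    obtain ⟨q', h3⟩ := h2 k
    exact h3 ▸ o1 q'
  have h2 := hS B' _ _ W m H d' D' l0.succ hW hH ((c2 _).2 ⟨o3, fun i => by
    rw [← U.ip, ← U.ip, ← map_div₀]
    exact uF _ 0 (o2 i)⟩) g2
  have h3 := d'.F_mul (d'.F_mul h2 (d'.F_pow (uF _ _ d3) m)) (d'.F_pow (o3 (X 0)) (s + m))
  rw [g3, mul_assoc H, ← mul_pow, ← map_mul, mul_inv_cancel₀ d2, map_one, one_pow, mul_one,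
    e4, g1] at h3
  refine (M.v o).F_anti (le_of_eq ?_) (h3 k)
  simp only [Pi.smul_apply, Pi.add_apply, Pi.one_apply, nsmul_eq_mul]
  ring

end Pool.Agent.MP_ee8c61_ag.N3.TX
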