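import Pool.Agent.MP_ee8c61_ag.TX.Spec
import Pool.Agent.MP_ee8c61_ag.TW.RCht
import Pool.Agent.MP_ee8c61_ag.M3E.RJac

/-! Log pluricanonical sections have logarithmic poles along every divisor over the base. -/

namespace Pool.Agent.MP_ee8c61_ag.N3.TX

open H59 hiding pd
open MvPolynomial M3 N3.M3E N3.TC
open Pool.Agent.MP_ee8c61_ag.TC (red)

variable [Base]

theorem rDis : OfDis := fun E N f M m H d D l0 h hH hO hD => by
  have B := (E.bas N _ M h).toBas1
  obtain ⟨b, hb⟩ := h.cov _ hO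
  obtain ⟨U, hU, hd⟩ := h.det b
  have z0 : ∀ l, M.S.z b l ≠ 0 := fun l e => by
    have := M.S.D_z b l l
    rw [e, map_zero, if_pos rfl] at this
    exact zero_ne_one this
  have zp : ∀ l, 0 ≤ d.v (M.S.z b l) := fun l =>
    (d.mem_F.1 (d.mem_O.1 (hb _ (M.S.z_mem b l)))).resolve_left (z0 l)
  have hJ := Pool.Agent.MP_ee8c61_ag.M3E.rowJac _ N d D l0 (M.S.z b) (fun l => d.v (M.S.z b l))
    hD fun l => d.mem_F_self _
  set J := (Matrix.of fun i l => D i (M.S.z b l)).det with eJ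
  have e1 : jc D = U * M.mon b M.kk * J := by
    have e : (Matrix.of fun k i => D i (M3.ip N (X k))) =
        (Matrix.of fun l i => M.S.D b i (M.S.r l)) *
          (Matrix.of fun i l => D i (M.S.z b l)).transpose := by
      ext k i
      rw [Matrix.mul_apply, Matrix.of_apply, (E.der N _ M h).chain (D i) b, h.r]
      exact Finset.sum_congr rfl fun l _ => mul_comm _ _
    rw [jc, e, Matrix.det_mul, Matrix.det_transpose, hd]
  have e2 : red (1 : M.J → ℤ) = 1 := funext fun _ => if_pos one_pos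
  have e3 : d.v (M.mon b 1) ≤ ∑ l, d.v (M.S.z b l) := by
    rw [← e2, ← RCht.prod_TT, d.prod _ fun l _ => z0 l]
    exact Finset.sum_le_sum_of_subset_of_nonneg (Finset.subset_univ _) fun l _ _ => zp l
  have h1 : J * (M.mon b 1)⁻¹ ∈ d.F (-1) := by
    refine d.F_anti ?_ (d.F_mul hJ (d.mem_F_self _))
    rw [d.inv]
    omega
  have h2 := d.F_mul (d.F_mul (d.mem_O.1 (hH _ hO b hb)) (d.F_pow (d.mem_O.1 (hb _ hU.1)) m))
    (d.F_pow h1 m)
  have e4 : H * jc D ^ m = H * M.mon b (m • (M.kk + 1)) * (U : KK N) ^ m *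
      (J * (M.mon b 1)⁻¹) ^ m := by
    rw [e1, B.mon_nsmul, B.mon_add, mul_assoc (H * _), mul_assoc H, ← mul_pow, ← mul_pow]
    have := M.mon_ne b 1
    refine congrArg (fun x => H * x ^ m) ?_
    field_simp
  rw [e4]
  refine d.F_anti (le_of_eq ?_) h2
  ring

end Pool.Agent.MP_ee8c61_ag.N3.TX
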