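import Pool.Agent.MP_ee8c61_ag.TX.Spec

/-! The restriction of a discrete valuation ring to a subfield. -/

namespace Pool.Agent.MP_ee8c61_ag.N3.TX

namespace RDv

theorem core (K L : Type) [Field K] [Field L] (φ : K →+* L) (O : ValuationSubring L)
    (g : K) (hO : IsDiscreteValuationRing O) (g0 : g ≠ 0) (hg : O.valuation (φ g) < 1) :
    IsDiscreteValuationRing (O.comap φ) := by
  let ψ : O.comap φ → O := fun x => ⟨φ x.1, x.2⟩
  have dv : ∀ x y : O.comap φ, x ≠ 0 → ψ x ∣ ψ y → x ∣ y := by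
    rintro x y hx ⟨c, hc⟩
    have x0 : x.1 ≠ 0 := fun h => hx (Subtype.ext h)
    have hc' : φ y.1 = φ x.1 * c.1 := congrArg Subtype.val hc
    have m : y.1 / x.1 ∈ O.comap φ := by
      show φ (y.1 / x.1) ∈ O
      rw [map_div₀, hc', mul_div_cancel_left₀ _ ((map_ne_zero φ).mpr x0)]
      exact c.2
    exact ⟨⟨y.1 / x.1, m⟩, Subtype.ext (by
      show y.1 = x.1 * (y.1 / x.1)
      rw [mul_div_cancel₀ _ x0])⟩
  have pir : IsPrincipalIdealRing (O.comap φ) := by
    refine ⟨fun I => ?_⟩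
    by_cases hI : I = ⊥
    · rw [hI]
      exact bot_isPrincipal
    obtain ⟨z, hz, z0⟩ := Submodule.exists_mem_ne_zero_of_ne_bot hI
    obtain ⟨x, ⟨hx, x0⟩, hmin⟩ := WellFounded.has_min
      (InvImage.wf (fun x : O.comap φ => IsDiscreteValuationRing.addVal O (ψ x)) wellFounded_lt)
      {x | x ∈ I ∧ x ≠ 0} ⟨z, hz, z0⟩
    refine ⟨x, le_antisymm (fun y hy => ?_) ?_⟩
    · by_cases y0 : y = 0
      · rw [y0]
        exact Submodule.zero_mem _
      have h := not_lt.mp (hmin y ⟨hy, y0⟩)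
      exact Ideal.mem_span_singleton.mpr
        (dv x y x0 (IsDiscreteValuationRing.addVal_le_iff_dvd.mp h))
    · exact (Submodule.span_singleton_le_iff_mem _ _).mpr hx
  have gm : g ∈ O.comap φ := (O.valuation_le_one_iff _).mp hg.le
  refine { not_a_field' := fun h => ?_ }
  have hu : IsUnit (⟨g, gm⟩ : O.comap φ) := by
    by_contra hn
    have : (⟨g, gm⟩ : O.comap φ) ∈ IsLocalRing.maximalIdeal (O.comap φ) := hn
    rw [h] at this
    exact g0 (congrArg Subtype.val (Submodule.mem_bot _ |>.mp this))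
  obtain ⟨c, hc⟩ := hu.exists_right_inv
  have h1 : g * c.1 = 1 := congrArg Subtype.val hc
  have h2 : O.valuation (φ c.1) ≤ 1 := (O.valuation_le_one_iff _).mpr c.2
  have h3 : O.valuation (φ g) * O.valuation (φ c.1) = 1 := by
    rw [← map_mul, ← map_mul, h1, map_one, map_one]
  exact absurd h3 (mul_lt_one_of_lt_of_le hg h2).ne

end RDv

theorem rDv : SDv := fun K L _ _ φ O g h1 h2 h3 => RDv.core K L φ O g h1 h2 h3

end Pool.Agent.MP_ee8c61_ag.N3.TX
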