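import Pool.Agent.MP_ee8c61_ag.TX.Spec
import Pool.Agent.MP_ee8c61_ag.Q3G.Gauss

/-! The Gauss extension of a valuation and of derivations. -/

namespace Pool.Agent.MP_ee8c61_ag.N3.TX

open M3 Q3G
open M3B1 (pd pd_X)
open Pool.Agent.MP_ee8c61_ag.TX (up)

namespace RGs

section Gen

variable {K L : Type} [Field K] [Field L] [Algebra K L] {y : L}

theorem gauss (h : Q3G.Rat K y) (d : DV K) : ∃ d' : DV L, ∀ (P : Polynomial K) (m : ℤ),
    Polynomial.aeval y P ∈ d'.F m ↔ ∀ k, P.coeff k ∈ d.F m := by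
  obtain ⟨Γ, hΓ⟩ := h.exists_dv d 0 (b := 1) one_pos
  refine ⟨Γ, fun P m => ?_⟩
  by_cases hP : P = 0
  · subst hP
    simp [zero_mem]
  have e : (Γ.v (Polynomial.aeval y P) : ℝ) = wp d 0 P := by
    rw [hΓ, h.w_poly hP]
    simp
  rw [DV.mem_F, or_iff_right (h.ne hP)]
  refine ⟨fun a k => ?_, fun a => ?_⟩
  · by_cases h0 : P.coeff k = 0
    · exact Or.inl h0
    have := wp_le (x := d) (γ := 0) h0
    rw [← e, mul_zero, add_zero] at this
    exact Or.inr (a.trans (by exact_mod_cast this))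
  · obtain ⟨i, h0, h1⟩ := wp_eq (x := d) (γ := 0) hP
    rw [← e, mul_zero, add_zero] at h1
    have h2 : Γ.v (Polynomial.aeval y P) = d.v (P.coeff i) := by exact_mod_cast h1
    exact h2 ▸ (a i).resolve_left h0

variable {d : DV K} {d' : DV L}
  (H : ∀ (P : Polynomial K) (m : ℤ), Polynomial.aeval y P ∈ d'.F m ↔ ∀ k, P.coeff k ∈ d.F m)

include H

theorem mono {c : K} {m : ℤ} (hc : c ∈ d.F m) (k : ℕ) : algebraMap K L c * y ^ k ∈ d'.F m := by
  rw [← Polynomial.aeval_monomial]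
  refine (H _ m).2 fun i => ?_
  rw [Polynomial.coeff_monomial]
  split_ifs
  · exact hc
  · exact zero_mem _

theorem bound [Algebra ℂ L] (h : Q3G.Rat K y) (δ : Derivation ℂ L L) (e : ℤ)
    (hδ : ∀ m, ∀ c ∈ d.F m, ∀ k : ℕ, δ (algebraMap K L c * y ^ k) ∈ d'.F (m - e)) (m : ℤ) :
    ∀ g ∈ d'.F m, δ g ∈ d'.F (m - e) := fun g hg => by
  have k : ∀ (P : Polynomial K) (m : ℤ), Polynomial.aeval y P ∈ d'.F m →
      δ (Polynomial.aeval y P) ∈ d'.F (m - e) := fun P m a => by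
    rw [Polynomial.aeval_eq_sum_range, map_sum]
    exact sum_mem fun i _ => by
      rw [Algebra.smul_def]
      exact hδ m _ ((H P m).1 a i) i
  by_cases h0 : g = 0
  · rw [h0, map_zero]
    exact zero_mem _
  obtain ⟨p, q, -, hq, e1⟩ := h.frac h0
  have a1 := k p _ (e1 ▸ d'.F_mul hg (d'.mem_F_self _))
  have a2 := d'.F_mul hg (k q _ (d'.mem_F_self _))
  rw [← add_sub_assoc] at a2
  have a3 := d'.F_mul (sub_mem a1 a2) (d'.mem_F_self (Polynomial.aeval y q)⁻¹)
  rw [← e1, Derivation.leibniz, smul_eq_mul, smul_eq_mul, add_sub_cancel_left, mul_comm _ (δ g),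
    mul_inv_cancel_right₀ (h.ne hq), d'.inv] at a3
  exact d'.F_anti (by omega) a3

theorem bound0 [Algebra ℂ L] (h : Q3G.Rat K y) (δ : Derivation ℂ L L) (h1 : δ y = 1)
    (h2 : ∀ c, δ (algebraMap K L c) = 0) (m : ℤ) : ∀ g ∈ d'.F m, δ g ∈ d'.F (m - 0) :=
  bound H h δ 0 (fun m c hc k => by
    rw [sub_zero, Derivation.leibniz, Derivation.leibniz_pow, h1, h2, smul_zero, add_zero,
      smul_eq_mul, smul_eq_mul, mul_one, mul_smul_comm]
    exact nsmul_mem (mono H hc _) k) m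

theorem bound1 [Algebra ℂ L] (h : Q3G.Rat K y) (δ : Derivation ℂ L L) (D : K → K) (e : ℤ)
    (h1 : δ y = 0) (h2 : ∀ c, δ (algebraMap K L c) = algebraMap K L (D c))
    (h3 : ∀ m, ∀ c ∈ d.F m, D c ∈ d.F (m - e)) (m : ℤ) : ∀ g ∈ d'.F m, δ g ∈ d'.F (m - e) :=
  bound H h δ e (fun m c hc k => by
    rw [Derivation.leibniz, Derivation.leibniz_pow, h1, h2, smul_zero, smul_zero, smul_zero,
      zero_add, smul_eq_mul, mul_comm]
    exact mono H (h3 m c hc) k) m

end Gen

variable {N : ℕ}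

theorem rat (U : Up N) : letI := (up (N := N)).toAlgebra; Q3G.Rat (KK N) (tt N) := by
  let _ := (up (N := N)).toAlgebra
  refine ⟨transcendental_iff.2 fun P h => U.tr P h, eq_top_iff.2 fun x _ => ?_⟩
  have k : ∀ p, M3.ip (N + 1) p ∈ IntermediateField.adjoin (KK N) {tt N} := fun p => by
    obtain ⟨P, -, e⟩ := U.poly p
    exact (IntermediateField.mem_adjoin_simple_iff (KK N) _).2 ⟨P, 1, by
      rw [map_one, div_one]
      exact e⟩
  obtain ⟨p, q, hq, e⟩ := M3B1.frac x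
  rw [show x = M3.ip (N + 1) p / M3.ip (N + 1) q from
    (eq_div_iff (M3B1.ip_ne hq)).2 ((mul_comm _ _).trans e)]
  exact div_mem (k p) (k q)

/-- The extension of a derivation that kills the new variable. -/
noncomputable def ext (δ : Derivation ℂ (KK N) (KK N)) : Derivation ℂ (KK (N + 1)) (KK (N + 1)) :=
  ∑ k, (up (δ (M3.ip N (MvPolynomial.X k))) : KK (N + 1)) • pd (N + 1) k.succ

theorem ext_ap (δ : Derivation ℂ (KK N) (KK N)) (g : KK (N + 1)) :
    ext δ g = ∑ k, up (δ (M3.ip N (MvPolynomial.X k))) * pd (N + 1) k.succ g := by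
  rw [ext, MP_96693b_ag.RS.LChart_sum_apply]
  rfl

theorem ext_t (δ : Derivation ℂ (KK N) (KK N)) : ext δ (tt N) = 0 := by
  simp [ext_ap, pd_X]

theorem ext_x (δ : Derivation ℂ (KK N) (KK N)) (l : Fin N) :
    ext δ (M3.ip (N + 1) (MvPolynomial.X l.succ)) = up (δ (M3.ip N (MvPolynomial.X l))) := by
  rw [ext_ap]
  simp only [pd_X, Fin.succ_inj, mul_ite, mul_one, mul_zero, Finset.sum_ite_eq', Finset.mem_univ,
    if_true]

theorem ext_up (U : Up N) (δ : Derivation ℂ (KK N) (KK N)) (g : KK N) :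
    ext δ (up g) = up (δ g) := by
  rw [U.chain, M3B1.chain δ g, map_sum]
  exact Finset.sum_congr rfl fun k _ => by rw [ext_x, map_mul]

theorem pd_up (U : Up N) (g : KK N) : pd (N + 1) 0 (up g) = 0 := by
  rw [U.chain]
  exact Finset.sum_eq_zero fun k _ => by rw [pd_X, if_neg (Fin.succ_ne_zero k).symm, zero_mul]

end RGs

open RGs

theorem rGs : OfGs := by
  intro hU N d D l0 hD
  have U := hU N
  let _ := (up (N := N)).toAlgebra
  obtain ⟨d', H⟩ := gauss (rat U) d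
  refine ⟨d', Fin.cons (pd (N + 1) 0) fun i => ext (D i), H, fun l => ?_, ?_⟩
  · refine Fin.cases ?_ (fun i => ?_) l
    · rw [if_neg (Fin.succ_ne_zero l0).symm]
      exact bound0 H (rat U) _ ((pd_X 0 0).trans (if_pos rfl)) (pd_up U)
    · simp only [Fin.succ_inj]
      exact bound1 H (rat U) _ (D i) _ (ext_t _) (ext_up U _) (hD i)
  · rw [jc, jc, Matrix.det_succ_row_zero, Fin.sum_univ_succ, RingHom.map_det,
      Finset.sum_eq_zero fun i _ => by
        rw [Matrix.of_apply, Fin.cons_succ, ext_t, mul_zero, zero_mul]]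
    rw [Matrix.of_apply, Fin.cons_zero, pd_X, if_pos rfl, Fin.val_zero, pow_zero, one_mul, one_mul,
      add_zero]
    exact congrArg Matrix.det (Matrix.ext fun k i => ext_x (D i) k)

end Pool.Agent.MP_ee8c61_ag.N3.TX
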