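import Pool.Agent.MP_ee8c61_ag.TX.Spec

/-! Lifting of one section from the divisor. -/

namespace Pool.Agent.MP_ee8c61_ag.N3.TX

open Pool.Agent.MP_ee8c61_ag.TC (red)

variable [Base]

open M3 N3.M3E N3.TC

theorem rLf2 : OfLf2 := by
  intro E hL hA N f M o P m σ hM fr P0 P1 hm h0
  have B := E.bas _ f M hM
  obtain ⟨A, a1, a2, a3, a4, a5⟩ := hA _ f M o P hM fr P0 P1
  set c : M.J → ℤ := m • (M.kk + M.e o + M.up A) with hc
  have uo : M.up A o = 0 := by simp [Mod.up, a2]
  have co : c o = m * (M.k o + 1) := by simp [hc, uo, Mod.kk, Mod.e_apply, mul_add]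
  obtain ⟨g, g1, g2⟩ := hL _ f M hM o A m a1 a2 hm σ fun V h1 h2 =>
    B.oc_mono V _ _ σ (fun j _ => nsmul_le_nsmul_right (add_le_add_right
      (show red P ≤ M.up A from fun j => by
        unfold red
        split_ifs with h
        exacts [a5 j h, a3 j]) _) m j) (h0 V h1 h2)
  rw [← hc] at g1 g2
  refine ⟨g, fun V hV => B.oc_mono V _ _ g (fun j _ => ?_) (g1 V hV), ?_⟩
  · refine nsmul_le_nsmul_right (show M.kk + M.e o + M.up A ≤ M.kk + 1 from fun j => ?_) m j
    have := a4 j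
    by_cases h : j = o
    · simp [h, uo, Mod.e_apply]
    · simpa [h, Mod.e_apply] using this
  · rw [← co, ← neg_sub σ g]
    exact neg_mem g2

end Pool.Agent.MP_ee8c61_ag.N3.TX
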