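import Pool.Agent.MP_ee8c61_ag.TX.Spec
import Pool.Agent.MP_ee8c61_ag.TC.RInd

/-! The theorem from the rows. -/

namespace Pool.Agent.MP_ee8c61_ag.N3.TX

open MvPolynomial M3 N3.TC
open Pool.Agent.MP_ee8c61_ag.TC (Indep red)
open Pool.Agent.MP_ee8c61_ag.TC.RInd
open Pool.Agent.MP_ee8c61_ag.TX (up Homog)

namespace RMain

theorem mono {K : Type} [Field K] (d : DV K) {x y : K} {n : ℤ}
    (h : d.O.valuation x ≤ d.O.valuation y) (hy : y ∈ d.F n) : x ∈ d.F n := by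
  by_cases h0 : y = 0
  · rw [h0, map_zero, le_zero_iff, Valuation.zero_iff] at h
    exact Or.inl h
  have h1 : x / y ∈ d.O := by
    rw [← d.O.valuation_le_one_iff, map_div₀]
    exact div_le_one_of_le₀ h zero_le
  have := d.F_mul h1 hy
  rwa [div_mul_cancel₀ _ h0, zero_add] at this

theorem bs0 {N r : ℕ} (F : Fin r → M3.Po N) : H10.IsBS F 0 :=
  ⟨∅, fun _ => 0, by simp, fun s => by simp⟩

theorem gd [Base] {N : ℕ} {f : Po N} (h : Gd f) {g : Po N} (hg : g ≠ 0) : Gd (g * f) := by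
  obtain ⟨f0, q, q0, h1, n, p, e⟩ := h
  exact ⟨mul_ne_zero hg f0, q, q0, h1, n, g ^ n * p, by rw [mul_pow, e, mul_assoc]⟩

theorem un_comap {K L : Type} [Field K] [Field L] {φ : K →+* L} {O : ValuationSubring L} {g : K} :
    Un (O.comap φ) g ↔ Un O (φ g) := by
  simp only [Un, ValuationSubring.mem_comap, map_inv₀, map_ne_zero]

end RMain

open RMain in
theorem rMain : OfMain := by
  intro hB hE hR hU hDv hT hC hL hA hDes hRev N r q f b j O u m c t hb hD hH hO hF h0 hf hu hm ht H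
  have U := hU N
  have f0 : M3.ip N (f j) ≠ 0 := M3B1.ip_ne h0
  have hO' : ∀ p, M3.ip N p ∈ O.comap up := fun p => by
    rw [ValuationSubring.mem_comap, U.ip]
    exact hO _
  have nu : ¬Un O (up (M3.ip N (f j))) := (not_un_iff (V := O) (hO' (f j))).2 hf
  cases N with
  | zero =>
    obtain ⟨a, ha⟩ := C_surjective (Fin 0) (f j)
    have a0 : a ≠ 0 := fun e => h0 (by rw [← ha, e, map_zero])
    refine absurd (un_comap.1 ⟨f0, hO' _, ?_⟩) nu
    have e : (M3.ip 0 (f j))⁻¹ = M3.ip 0 (C a⁻¹) := inv_eq_of_mul_eq_one_right (by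
      rw [← ha, ← map_mul, ← map_mul, mul_inv_cancel₀ a0, map_one, map_one])
    exact e ▸ hO' _
  | succ n =>
  obtain ⟨B, gd0, ov, β, Q, bs⟩ := hB _ r f j b hb h0
  have h0' : rename Fin.succ (f j) ≠ (0 : M3.Po (n + 2)) :=
    (map_ne_zero_iff _ (rename_injective _ (Fin.succ_injective _))).2 h0
  have ut : ∀ l, Un (O.comap up) (t l) := fun l => un_comap.2 (un_iff.2 (by
    simpa using ht 1 (X l) (X_ne_zero l) (isHomogeneous_X ℂ l)))
  have ind : ∀ P : M3.Po n, P ≠ 0 →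
      Un (O.comap up) (aeval (fun i : Fin n => t i.succ / t 0) P) := fun P hP => by
    have h1 := un_comap.2 (un_iff.2 (ht _ _ (hom_ne hP) (hom_isHom _ P)))
    rw [aeval_hom P (t 0) (fun i => t i.succ / t 0) t rfl
      fun i => (mul_div_cancel₀ _ (ut 0).1).symm, mul_comm] at h1
    exact h1.cancel ((ut 0).pow _)
  obtain ⟨M, o, -, ok, e, -⟩ := hR B n 0 (@pp B _ (f j)) (O.comap up) Fin.elim0 _ gd0
    (hDv _ _ up O _ hD f0 hf) ((ov _).2 ⟨hO', hF⟩) (fun h => nu (un_comap.1 h))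
    (fun i => i.elim0) ind
  have Bs := (hE B).bas _ _ M ok
  have vf : (M.v o).v (M3.ip (n + 1) (f j)) = M.a o :=
    ((Bs.gen_v o _ _).1 (Bs.gen_f _)).2.trans (neg_neg _)
  have hv : ∀ c, ∀ g ∈ M.H c, g ∈ (M.v o).F (-c o) := fun c g hg =>
    (Bs.oc_v o _ _).1 (hg _ (Bs.ov_v o))
  obtain ⟨B', gd1, ov', -⟩ := hB _ r (fun i => rename Fin.succ (f i)) j 0 (bs0 _) h0'
  obtain ⟨y', hy'⟩ := hT n O _ _ hD hH hO f0 hf fun P hP => un_comap.1 (ind P hP)
  have t0 : tt (n + 1) ≠ 0 := M3B1.ip_ne (X_ne_zero 0)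
  have ef : M3.ip (n + 2) (X 0 * rename Fin.succ (f j)) = tt _ * up (M3.ip _ (f j)) := by
    rw [map_mul, U.ip]
  obtain ⟨W, o', P, ok', e', fr, p0, po, hP⟩ := hR B' (n + 1) q
    (@pp B' _ (X 0 * rename Fin.succ (f j))) O u y'
    (by
      rw [map_mul]
      exact @gd B' _ _ gd1 _ fun h => t0 (congrArg Subtype.val h))
    hD ((ov' _).2 ⟨hO, fun i => by
      rw [← U.ip, ← U.ip, ← map_div₀]
      exact hF i⟩)
    (fun h => not_un_mul (hO (X 0)) (hO' (f j)) nu (ef ▸ h))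
    (fun i => ⟨(hu i).1, let ⟨e, p, h⟩ := (hu i).2; ⟨e, @pp B' _ p, by
      exact (congrArg (u i * · ^ e) ef).trans h⟩⟩) hy'
  subst e'
  obtain ⟨ε, ε0, hε, rev⟩ := hRev _ B B' _ _ M W o o' ok ok' e
  have fc : M3.ip (n + 1) (f j) ^ c ≠ 0 := pow_ne_zero _ f0
  have vs : ∀ l, (M.v o).v (t l / M3.ip _ (f j) ^ c) = -(c * M.a o) := fun l => by
    rw [DV.div _ (ut l).1 fc, DV.pow, vf, ((M.v o).un_O.1 (e ▸ ut l)).2, zero_sub]
  have key : ∀ l, ε * (c * M.a o) + m * (W.v o').v (tt _) = m * (W.k o' + 1) ∧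
      ∃ g ∈ @Mod.H B _ M (m • (M.kk + 1)),
        g - t l / M3.ip _ (f j) ^ c ∈ (M.v o).F (1 - c * M.a o) := fun l => by
    obtain ⟨k1, -, k2⟩ := hC B' _ r q _ j _ W o' P u m c _ ok'
      (fun i => (@mem_Rb B' _ _).2 fun V hV => ((ov' V).1 hV).2 i) p0 po hP (H l)
    have s0 := div_ne_zero (ut l).1 fc
    have e1 : up (t l) / TW.rf (X 0) ^ m / M3.ip _ (rename Fin.succ (f j)) ^ c =
        up (t l / M3.ip _ (f j) ^ c) / tt _ ^ m := by
      rw [map_div₀, map_pow, U.ip, div_right_comm]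
      rfl
    rw [e1] at k1 k2
    rw [DV.div _ ((map_ne_zero up).2 s0) (pow_ne_zero _ t0), DV.pow, hε, vs] at k2
    obtain ⟨G, g1, g2⟩ := hL B' _ _ W o' P m _ ok' fr p0 po hm k1
    obtain ⟨a, R, r1, r2⟩ := hDes _ r f j B B' M W m G h0 ov ov' ok ok' g1
    refine ⟨by linarith, R.coeff a, r2 a, ?_⟩
    have h1 : (W.v o').O.valuation (up _ * tt _ ^ a) ≤ (W.v o').O.valuation
        (Polynomial.eval₂ up (tt _) _) :=
      hH (R - Polynomial.monomial a (t l / M3.ip _ (f j) ^ c)) a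
    rw [Polynomial.eval₂_sub, Polynomial.eval₂_monomial, ← r1, Polynomial.coeff_sub,
      Polynomial.coeff_monomial_same] at h1
    have h2 := (W.v o').F_mul g2 ((W.v o').mem_F_self (tt _ ^ (a + m)))
    rw [sub_mul, pow_add, mul_comm (tt _ ^ a), ← mul_assoc (_ / _),
      div_mul_cancel₀ _ (pow_ne_zero _ t0), mul_comm (tt _ ^ m), ← pow_add, DV.pow] at h2
    by_cases h3 : R.coeff a - t l / M3.ip _ (f j) ^ c = 0
    · exact Or.inl h3
    have h4 := (mono _ h1 h2).resolve_left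
      (mul_ne_zero ((map_ne_zero up).2 h3) (pow_ne_zero _ t0))
    rw [DV.mul _ _ _ ((map_ne_zero up).2 h3) (pow_ne_zero _ t0), hε, DV.pow] at h4
    push_cast at h4
    refine Or.inr (Int.sub_one_lt_iff.1 (lt_of_mul_lt_mul_left ?_ ε0.le))
    linarith
  choose k1 g g1 g2 using key
  have h2 : (c : ℤ) * M.a o = m * (M.k o + 1) := by
    have a1 := (M.v o).eq_of_sub (div_ne_zero (ut 0).1 fc) (vs 0) (h := g 0)
      (by rw [neg_add_eq_sub]; exact g2 0)
    have a2 := (hv _ _ (g1 0)).resolve_left a1.1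
    rw [a1.2] at a2
    have a3 : (m • (M.kk + 1) : M.J → ℤ) o = m * (M.k o + 1) := by simp [Mod.kk]
    rw [a3] at a2
    refine le_antisymm (by linarith) (le_of_mul_le_mul_left ?_ ε0)
    have := mul_le_mul_of_nonneg_left rev (Nat.cast_nonneg (α := ℤ) m)
    linarith [k1 0]
  have hm0 : (m : ℚ) ≠ 0 := Nat.cast_ne_zero.2 hm.ne'
  have h3 : (c : ℚ) * M.a o = m * (M.k o + 1) := by exact_mod_cast h2
  rw [h2] at g2 vs
  have := hA B n (@pp B _ (f j)) (c / m) b β Q M o m _ (g 0)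
    (fun i => t i.succ / M3.ip _ (f j) ^ c) (fun i => g i.succ) bs ok (by
      show (M.k o : ℚ) + 1 - c / m * M.a o = 0
      rw [div_mul_eq_mul_div, h3, mul_div_cancel_left₀ _ hm0, sub_self]) hm
    (div_ne_zero (ut 0).1 fc) (vs 0) (g1 0) (g2 0) (fun i => g1 _) (fun i => g2 _)
    fun P hP => by
      simp only [div_div_div_cancel_right₀ fc]
      exact (M.v o).un_O.1 (e ▸ ind P hP)
  simpa using this

end Pool.Agent.MP_ee8c61_ag.N3.TX
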