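import Pool.Agent.MP_ee8c61_ag.TX.Spec
import Pool.Agent.MP_ee8c61_ag.M3E.RJac

/-! The discrepancy of an extension of a divisor. -/

namespace Pool.Agent.MP_ee8c61_ag.N3.TX

open H59 hiding pd
open MvPolynomial M3 N3.M3E
open M3B1 (pd)
open Pool.Agent.MP_ee8c61_ag.TX (up)

namespace RRev

/-- Coordinates at a divisor. -/
structure Ct {N : ℕ} (d : DV (KK N)) (k : ℤ) (z : Fin N → KK N)
    (D : Fin N → Derivation ℂ (KK N) (KK N)) (l0 : Fin N) : Prop where
  one : d.v (z l0) = 1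
  mem : ∀ l, z l ∈ d.F 0
  chain : ∀ (δ : Derivation ℂ (KK N) (KK N)) g, δ g = ∑ l, δ (z l) * D l g
  bd : Bd d D l0
  ne : jc D ≠ 0
  ord : d.v (jc D) = k

theorem chart [Base] (E : EOut) {N : ℕ} {f : N3.Po N} {M : N3.Mod N} (h : M.OK f) (o : M.J) :
    ∃ z D l0, Ct (M.v o) (M.k o) z D l0 := by
  obtain ⟨b, hb⟩ := h.ne o
  obtain ⟨h1, h2, -⟩ := h.dv b o hb
  obtain ⟨l0, hl⟩ : ∃ l0, M.S.lab b o = some l0 := by
    rcases e : M.S.lab b o with _ | l0
    · refine absurd ?_ hb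
      rw [N3.Mod.η, M.S.η_none b o e]
      simp
    · exact ⟨l0, rfl⟩
  obtain ⟨U, hU, hd⟩ := h.det b
  rw [h.r] at hd
  have hd' : jc (M.S.D b) = U * M.mon b M.kk := hd
  have hu : Un (M.v o).O (U : KK N) := ⟨U.ne_zero, h1 _ hU.1, by simpa using h1 _ hU.2⟩
  refine ⟨M.S.z b, M.S.D b, l0, M.S.η_some b o l0 hl ▸ h2, fun l => h1 _ (M.S.z_mem b l),
    fun δ g => (E.der N f M h).chain δ b g, (E.der N f M h).ord b o l0 h1 hl, ?_, ?_⟩
  · rw [hd']
    exact mul_ne_zero U.ne_zero (Units.ne_zero _)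
  · rw [hd', (M.v o).mul _ _ U.ne_zero (Units.ne_zero _), ((M.v o).un_O.1 hu).2, zero_add]
    exact (E.bas N f M h).v_mon b o M.kk h1

theorem index {K L : Type} [Field K] [Field L] (φ : K →+* L) (d : DV K) (d' : DV L) {π : K}
    (hπ : d.v π = 1) (h : d.O = d'.O.comap φ) :
    0 < d'.v (φ π) ∧ ∀ g, d'.v (φ g) = d'.v (φ π) * d.v g := by
  have π0 : π ≠ 0 := fun e => by simp [e, d.zero] at hπ
  have π1 : φ π ≠ 0 := (map_ne_zero φ).2 π0
  have hm : ∀ g, g ∈ d.F 0 ↔ φ g ∈ d'.F 0 := fun g => by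
    show g ∈ d.O ↔ g ∈ d'.O.comap φ
    rw [h]
  refine ⟨not_le.1 fun x => ?_, fun g => ?_⟩
  · have := (hm π⁻¹).2 (Or.inr (by rw [map_inv₀, d'.inv]; omega))
    have := this.resolve_left (inv_ne_zero π0)
    rw [d.inv] at this
    omega
  by_cases g0 : g = 0
  · simp [g0, d.zero, d'.zero]
  have z0 := zpow_ne_zero (-d.v g) π0
  have u0 := mul_ne_zero g0 z0
  have e : d.v (g * π ^ (-d.v g)) = 0 := by
    rw [d.mul _ _ g0 z0, d.zpow, hπ]
    ring
  have a1 := ((hm _).1 (Or.inr e.ge)).resolve_left ((map_ne_zero φ).2 u0)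
  have a2 := ((hm (g * π ^ (-d.v g))⁻¹).1 (Or.inr (by rw [d.inv, e]; rfl))).resolve_left
    ((map_ne_zero φ).2 (inv_ne_zero u0))
  rw [map_inv₀, d'.inv] at a2
  rw [map_mul, map_zpow₀, d'.mul _ _ ((map_ne_zero φ).2 g0) (zpow_ne_zero _ π1),
    d'.zpow] at a1 a2
  linarith

theorem jc_eq {N : ℕ} (U : Up N) {z : Fin N → KK N} {D : Fin N → Derivation ℂ (KK N) (KK N)}
    (hc : ∀ (δ : Derivation ℂ (KK N) (KK N)) g, δ g = ∑ l, δ (z l) * D l g)
    (D' : Fin (N + 1) → Derivation ℂ (KK (N + 1)) (KK (N + 1))) :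
    jc D' = up (jc D) * (Matrix.of fun i l =>
      D' i ((Fin.cons (tt N) fun l => up (z l) : Fin (N + 1) → KK (N + 1)) l)).det := by
  let B : Matrix (Fin (N + 1)) (Fin (N + 1)) (KK (N + 1)) := Matrix.of
    (Fin.cons (Fin.cons 1 fun _ => 0) fun k => Fin.cons 0 fun l => up (D l (M3.ip N (X k))))
  have hB : B.det = up (jc D) := by
    rw [Matrix.det_succ_row_zero, Fin.sum_univ_succ, RingHom.map_det]
    simp only [B, Matrix.of_apply, Fin.cons_zero, Fin.cons_succ, mul_zero, zero_mul,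
      Finset.sum_const_zero, add_zero, Fin.val_zero, pow_zero, mul_one, one_mul]
    rfl
  rw [← hB, ← Matrix.det_transpose (Matrix.of fun i l => D' i _), ← Matrix.det_mul]
  refine congrArg Matrix.det (Matrix.ext fun k i => ?_)
  rw [Matrix.mul_apply, Fin.sum_univ_succ]
  refine Fin.cases ?_ (fun k => ?_) k
  · simp [B, tt]
  · simp only [B, Matrix.of_apply, Fin.cons_zero, Fin.cons_succ, Matrix.transpose_apply, zero_mul,
      zero_add, U.chain, Finset.mul_sum]
    rw [Finset.sum_comm, ← rename_X (R := ℂ) Fin.succ k, ← U.ip, U.chain]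
    refine Finset.sum_congr rfl fun j _ => ?_
    rw [hc (pd N j), map_sum, Finset.mul_sum]
    exact Finset.sum_congr rfl fun l _ => by rw [map_mul]; ring

end RRev

open RRev in
theorem rRev : OfRev := by
  intro E U N B B' f f' M W o o' hM hW h
  obtain ⟨z, D, l0, c⟩ := @chart B (E B) _ _ _ hM o
  obtain ⟨z', D', l1, c'⟩ := @chart B' (E B') _ _ _ hW o'
  obtain ⟨e0, he⟩ := index up (M.v o) (W.v o') c.one h
  refine ⟨_, e0, he, ?_⟩
  generalize hg : (W.v o').v (up (z l0)) = e at e0 he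
  have h1 := jc_eq (U N) c.chain D'
  have h2 := Pool.Agent.MP_ee8c61_ag.M3E.rowJac _ _ (W.v o') D' l1
    (Fin.cons (tt N) fun l => up (z l))
    (Fin.cons ((W.v o').v (tt N)) fun l => if l = l0 then e else 0) c'.bd fun l => by
      refine Fin.cases ((W.v o').mem_F_self _) (fun l => ?_) l
      simp only [Fin.cons_succ]
      split_ifs with x
      · exact Or.inr (by rw [x, hg])
      · exact (c.mem l).imp (fun y => by rw [y, map_zero]) fun y => by
          rw [he]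
          exact mul_nonneg e0.le y
  have h3 := c'.ne
  have h4 := c'.ord
  rw [h1] at h3 h4
  rw [(W.v o').mul _ _ (left_ne_zero_of_mul h3) (right_ne_zero_of_mul h3), he, c.ord] at h4
  have h5 := h2.resolve_left (right_ne_zero_of_mul h3)
  simp only [Fin.sum_univ_succ, Fin.cons_zero, Fin.cons_succ, Finset.sum_ite_eq', Finset.mem_univ,
    if_true] at h5
  linarith

end Pool.Agent.MP_ee8c61_ag.N3.TX
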