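import Pool.Agent.MP_ee8c61_ag.TX.Spec

/-! One more independent residue. -/

namespace Pool.Agent.MP_ee8c61_ag.N3.TX

open MvPolynomial M3
open Pool.Agent.MP_ee8c61_ag.TX (up Homog)

namespace RTau

theorem pw {K : Type} [Field K] (O : ValuationSubring K) (h : IsDiscreteValuationRing O) :
    ∃ w : O.ValueGroup, ∀ a ∈ O, a ≠ 0 → ∃ n : ℕ, O.valuation a = w ^ n := by
  obtain ⟨ϖ, hϖ⟩ := IsDiscreteValuationRing.exists_irreducible O
  refine ⟨O.valuation ϖ, fun a ha h0 => ?_⟩
  obtain ⟨n, u, hu⟩ := IsDiscreteValuationRing.associated_pow_irreducible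
    (x := (⟨a, ha⟩ : O)) (fun h => h0 (congrArg Subtype.val h)) hϖ
  refine ⟨n, ?_⟩
  have := congrArg (fun z : O => O.valuation (z : K)) hu
  simpa [O.valuation_unit u] using this

theorem cons_eq {n : ℕ} {L : Type} [CommRing L] [Algebra ℂ L] (τ : L) (z : Fin n → L)
    (P : MvPolynomial (Fin (n + 1)) ℂ) : aeval (Fin.cons τ z : Fin (n + 1) → L) P =
      (finSuccEquiv ℂ n P).eval₂ (aeval z : MvPolynomial (Fin n) ℂ →ₐ[ℂ] L).toRingHom τ := by
  induction P using MvPolynomial.induction_on with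
  | C a => simp [finSuccEquiv_apply]
  | add p q hp hq => simp only [map_add, Polynomial.eval₂_add, hp, hq]
  | mul_X p i hp =>
    rw [map_mul, map_mul, Polynomial.eval₂_mul, hp]
    refine congrArg _ ?_
    induction i using Fin.cases with
    | zero => simp [finSuccEquiv_X_zero]
    | succ i => simp [finSuccEquiv_X_succ]

end RTau

open RTau in
theorem rTau : OfTau := by
  intro hU n O y g hO hH hp hg hv hy
  obtain ⟨w, hw⟩ := pw O hO
  have ht0 : tt (n + 1) ≠ 0 := (map_ne_zero_iff _ (IsFractionRing.injective _ _)).2 (X_ne_zero _)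
  have hg0 : up g ≠ 0 := (map_ne_zero _).2 hg
  obtain ⟨e, he⟩ := hw _ (hp (X 0)) ht0
  obtain ⟨d, hd⟩ := hw _ ((O.valuation_le_one_iff _).1 hv.le) hg0
  have hd0 : 0 < d := Nat.pos_of_ne_zero fun h => by simp [hd, h] at hv
  have hτ : O.valuation (up (g ^ e)⁻¹ * tt (n + 1) ^ d) = 1 := by
    have : O.valuation (up g) ^ e ≠ 0 := pow_ne_zero _ ((map_ne_zero _).2 hg0)
    rw [map_mul, map_inv₀, map_inv₀, map_pow, map_pow, map_pow, he, ← pow_mul, mul_comm e d,
      pow_mul, ← hd, inv_mul_cancel₀ this]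
  have hz : (aeval fun i => up (y i) : M3.Po n →ₐ[ℂ] KK (n + 2)).toRingHom =
      up.comp (aeval y : M3.Po n →ₐ[ℂ] KK (n + 1)).toRingHom := by
    refine MvPolynomial.ringHom_ext (fun c => ?_) fun i => ?_
    · simp [(hU _).alg]
    · simp
  refine ⟨Fin.cons (up (g ^ e)⁻¹ * tt (n + 1) ^ d) fun i => up (y i), fun P hP => ?_⟩
  rw [un_iff, cons_eq, hz]
  have hQ : finSuccEquiv ℂ n P ≠ 0 := (map_ne_zero_iff _ (finSuccEquiv ℂ n).injective).2 hP
  generalize finSuccEquiv ℂ n P = Q at hQ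
  refine le_antisymm ((O.valuation_le_one_iff _).2 ?_) ?_
  · rw [Polynomial.eval₂_eq_sum, Polynomial.sum_def]
    exact sum_mem fun k hk => mul_mem (hy _ (Polynomial.mem_support_iff.1 hk)).2.1
      (pow_mem ((O.valuation_le_one_iff _).1 hτ.le) _)
  · have h := hH (Polynomial.expand _ d ((Q.map (aeval y : M3.Po n →ₐ[ℂ] _).toRingHom).comp
      (.C (g ^ e)⁻¹ * .X))) (Q.natDegree * d)
    rw [Polynomial.coeff_expand_mul hd0, Polynomial.comp_C_mul_X_coeff, Polynomial.coeff_map,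
      Polynomial.expand_eq_comp_X_pow, Polynomial.eval₂_comp, Polynomial.eval₂_comp,
      Polynomial.eval₂_map, Polynomial.eval₂_mul, Polynomial.eval₂_C, Polynomial.eval₂_X,
      Polynomial.eval₂_X_pow, map_mul up, map_pow up, pow_mul', mul_assoc, ← mul_pow, map_mul,
      map_pow O.valuation] at h
    refine le_trans (le_of_eq ?_) h
    have h1 := un_iff.1 (hy _ (Polynomial.leadingCoeff_ne_zero.2 hQ))
    exact (mul_one 1).symm.trans (congrArg₂ _ h1.symm
      ((one_pow _).symm.trans (congrArg (· ^ Q.natDegree) hτ.symm)))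

end Pool.Agent.MP_ee8c61_ag.N3.TX
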