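import Pool.Agent.MP_ee8c61_ag.TX.RAb2
import Pool.Agent.MP_ee8c61_ag.TX.RCh2
import Pool.Agent.MP_ee8c61_ag.TX.RDen
import Pool.Agent.MP_ee8c61_ag.TX.RDes
import Pool.Agent.MP_ee8c61_ag.TX.RDis
import Pool.Agent.MP_ee8c61_ag.TX.RDv
import Pool.Agent.MP_ee8c61_ag.TX.RGs
import Pool.Agent.MP_ee8c61_ag.TX.RLf2
import Pool.Agent.MP_ee8c61_ag.TX.RMain
import Pool.Agent.MP_ee8c61_ag.TX.RRev
import Pool.Agent.MP_ee8c61_ag.TX.RTau
import Pool.Agent.MP_ee8c61_ag.TX.RUp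
import Pool.Agent.MP_ee8c61_ag.TW.RAmp
import Pool.Agent.MP_ee8c61_ag.TW.RBas
import Pool.Agent.MP_ee8c61_ag.TW.RCen
import Pool.Agent.MP_ee8c61_ag.TW.RLift
import Pool.Agent.MP_ee8c61_ag.TW.RNk
import Pool.Agent.MP_ee8c61_ag.TW.RReal
import Pool.Agent.MP_ee8c61_ag.TC.RPert
import Pool.Agent.MP_ee8c61_ag.TC.RSs
import Pool.Agent.MP_ee8c61_ag.N3E.Final
import Pool.Agent.MP_ee8c61_ag.N3L.R1

/-! A cyclic cover of log general type gives a root. -/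

namespace Pool.Agent.MP_ee8c61_ag.N3.TX

open N3.M3E (eout)
open N3.TC
open Pool.Agent.MP_ee8c61_ag.TC (rowSs rowPert)

theorem main : Main :=
  rMain rBas (fun _ => eout) (fun _ => rReal eout B1.sb1raw (rCen eout)) rUp rDv (rTau rUp)
    (fun _ => rCh2 eout) (fun _ => rLf2 eout (rLift eout) (rAmp eout))
    (fun _ => rAb2 eout (M3L.sr1 eout) (rNk eout rowSs) rowPert)
    (rDes (fun _ => eout) rUp (rGs rUp) rDen fun _ => rDis eout) (rRev (fun _ => eout) rUp)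

end Pool.Agent.MP_ee8c61_ag.N3.TX
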