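import Pool.Agent.MP_ee8c61_ag.TX.Spec

/-! Global sections with independent restrictions give a root. -/

namespace Pool.Agent.MP_ee8c61_ag.N3.TX

open Pool.Agent.MP_ee8c61_ag.TC (Indep red SSs SPert)

variable [Base]

open M3 N3.M3E N3.TC

theorem rAb2 : OfAb2 := by
  intro E hR hN hP n f la b β Q M o m s₀ g₀ s g hb hM hex hm n0 v0 g1 g2 g3 g4 hI
  have B := E.bas _ f M hM
  set c : M.J → ℤ := m • (M.kk + 1) with hc
  have co : c o = m * (M.k o + 1) := by simp [hc, Mod.kk, mul_add]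
  rw [← co] at v0 g2 g4
  have d0 : g₀ - s₀ ∈ (M.v o).F (-c o + 1) := by rwa [neg_add_eq_sub]
  obtain ⟨g5, g6⟩ := (M.v o).eq_of_sub n0 v0 d0
  have i0 : g₀⁻¹ ∈ (M.v o).F (c o) := Or.inr (by rw [DV.inv, g6, neg_neg])
  have i1 : s₀⁻¹ ∈ (M.v o).F (c o) := Or.inr (by rw [DV.inv, v0, neg_neg])
  obtain ⟨w, hw⟩ := hM.amp
  obtain ⟨r, t, r0, t1, t2⟩ := hN n f M o c (-w) g₀ g hM g1 g5 g6 g3 (hP _ n _ _ _ (fun i => by
    have e0 := (B.oc_v o c _).1 (g3 i _ (B.ov_v o))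
    have e1 := (M.v o).F_mul (g4 i) i1
    have e2 := (M.v o).F_mul ((M.v o).F_mul ((M.v o).F_mul e0 (neg_mem g2)) i0) i1
    rw [show 1 - c o + c o = 1 by ring] at e1
    rw [show -c o + (1 - c o) + c o + c o = 1 by ring] at e2
    refine Eq.subst (motive := (· ∈ (M.v o).F 1)) ?_ (add_mem e1 e2)
    field_simp
    ring) hI)
  have rm : (0 : ℚ) < (r * m : ℕ) := by exact_mod_cast Nat.mul_pos r0 hm
  have ec : r • c + -w = (r * m) • (M.kk + 1) - w := by rw [hc, smul_smul, sub_eq_add_neg]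
  rw [ec] at t1 t2
  refine hR _ f la b β Q M o (M.q w) (-(1 / (r * m : ℕ))) (r * m) ((r * m) • (M.kk + 1) - w)
    hM.gd.1 hb hM hex
    ((E.aq _ f M hM).of_amp w hw) (neg_lt_zero.2 (one_div_pos.2 rm)) (Nat.mul_pos r0 hm)
    (funext fun j => ?_) t t1 t2
  simp only [Mod.q_apply, Mod.nu, Mod.kk, Pi.sub_apply, Pi.add_apply, Pi.smul_apply,
    Pi.one_apply, smul_eq_mul, nsmul_eq_mul, Pi.mul_apply, Pi.natCast_apply]
  have := rm.ne'
  push_cast at this ⊢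
  field_simp
  ring

end Pool.Agent.MP_ee8c61_ag.N3.TX
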