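import Pool.Agent.MP_ee8c61_ag.TX.Spec

/-! Rational functions in one more variable. -/

namespace Pool.Agent.MP_ee8c61_ag.N3.TX

open MvPolynomial M3
open M3B1 (pd)
open Pool.Agent.MP_ee8c61_ag.TX (up)

noncomputable section

namespace RUp

variable {N : ℕ}

theorem up_ip (p : M3.Po N) : up (M3.ip N p) = M3.ip (N + 1) (rename Fin.succ p) :=
  IsLocalization.map_eq (T := nonZeroDivisors (M3.Po (N + 1)))
    (nonZeroDivisors_le_comap_nonZeroDivisors_of_injective
      (rename Fin.succ : M3.Po N →ₐ[ℂ] _).toRingHom (rename_injective _ (Fin.succ_injective N))) p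

theorem up_alg (c : ℂ) : up (algebraMap ℂ (KK N) c) = algebraMap ℂ (KK (N + 1)) c := by
  rw [← (M3.ip N).commutes, up_ip, ← (M3.ip (N + 1)).commutes, algebraMap_eq, rename_C,
    algebraMap_eq]

theorem ev (p : M3.Po (N + 1)) : M3.ip (N + 1) p =
    ((finSuccEquiv ℂ N p).map (M3.ip N).toRingHom).eval₂ up (tt N) := by
  induction p using MvPolynomial.induction_on with
  | C c =>
    rw [← algebraMap_eq, AlgEquiv.commutes, AlgHom.commutes, Polynomial.algebraMap_apply,
      Polynomial.map_C, Polynomial.eval₂_C]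
    exact (up_alg c).symm.trans (congrArg up ((M3.ip N).commutes c).symm)
  | add p q hp hq => rw [map_add, map_add, Polynomial.map_add, Polynomial.eval₂_add, hp, hq]
  | mul_X p i hp =>
    rw [map_mul, map_mul, Polynomial.map_mul, Polynomial.eval₂_mul, hp]
    refine congrArg _ ?_
    refine Fin.cases ?_ (fun k => ?_) i
    · rw [finSuccEquiv_X_zero, Polynomial.map_X, Polynomial.eval₂_X]
    · rw [finSuccEquiv_X_succ, Polynomial.map_C, Polynomial.eval₂_C, ← rename_X Fin.succ, ← up_ip]
      rfl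

theorem tr (P : Polynomial (KK N)) (h : P.eval₂ up (tt N) = 0) : P = 0 := by
  obtain ⟨b, hb, e⟩ := IsLocalization.integerNormalization_spec (nonZeroDivisors (M3.Po N)) P
  obtain ⟨p, hp⟩ := (finSuccEquiv ℂ N).surjective
    (IsLocalization.integerNormalization (nonZeroDivisors (M3.Po N)) P)
  have e1 : (finSuccEquiv ℂ N p).map (M3.ip N).toRingHom = Polynomial.C (M3.ip N b) * P := by
    rw [hp, ← Polynomial.smul_eq_C_mul]
    exact e.trans (algebraMap_smul (KK N) b P).symm
  have h1 := ev p
  rw [e1, Polynomial.eval₂_mul, h, mul_zero] at h1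
  have h2 : p = 0 := M3B1.ip_inj (h1.trans (map_zero _).symm)
  rw [h2, map_zero, Polynomial.map_zero] at e1
  exact (mul_eq_zero.1 e1.symm).resolve_left
    (Polynomial.C_ne_zero.2 (M3B1.ip_ne (nonZeroDivisors.ne_zero hb)))

theorem chain (δ : Derivation ℂ (KK (N + 1)) (KK (N + 1))) (g : KK N) :
    δ (up g) = ∑ k, δ (M3.ip (N + 1) (X k.succ)) * up (pd N k g) := by
  have mul : ∀ a b : KK N, ∑ k, δ (M3.ip (N + 1) (X k.succ)) * up (pd N k (a * b)) =
      up a * ∑ k, δ (M3.ip (N + 1) (X k.succ)) * up (pd N k b) +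
        up b * ∑ k, δ (M3.ip (N + 1) (X k.succ)) * up (pd N k a) := fun a b => by
    rw [Finset.mul_sum, Finset.mul_sum, ← Finset.sum_add_distrib]
    refine Finset.sum_congr rfl fun k _ => ?_
    rw [Derivation.leibniz, smul_eq_mul, smul_eq_mul, map_add, map_mul, map_mul]
    ring
  have h1 : ∀ p, δ (up (M3.ip N p)) =
      ∑ k, δ (M3.ip (N + 1) (X k.succ)) * up (pd N k (M3.ip N p)) := fun p => by
    induction p using MvPolynomial.induction_on with
    | C c =>
      rw [← algebraMap_eq, AlgHom.commutes, up_alg, Derivation.map_algebraMap]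
      simp only [Derivation.map_algebraMap, map_zero, mul_zero, Finset.sum_const_zero]
    | add p q hp hq => simp only [map_add, hp, hq, mul_add, Finset.sum_add_distrib]
    | mul_X p i hp =>
      rw [map_mul, mul, ← hp, map_mul, Derivation.leibniz, smul_eq_mul, smul_eq_mul, up_ip (X i),
        rename_X]
      simp only [M3B1.pd_X, apply_ite up, map_one, map_zero, mul_ite, mul_one, mul_zero,
        Finset.sum_ite_eq', Finset.mem_univ, if_true]
  obtain ⟨p, q, hq, e⟩ := M3B1.frac g
  have h2 := h1 p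
  rw [← e, mul, ← h1, map_mul, Derivation.leibniz, smul_eq_mul, smul_eq_mul, add_left_inj] at h2
  exact mul_left_cancel₀ ((map_ne_zero up).2 (M3B1.ip_ne hq)) h2

end RUp

theorem rUp : SUp := fun N =>
  ⟨RUp.up_ip, RUp.up_alg, fun p => ⟨_, fun k => by
    rw [Polynomial.coeff_map]
    exact ⟨_, rfl⟩, RUp.ev p⟩, RUp.tr, RUp.chain⟩

end

end Pool.Agent.MP_ee8c61_ag.N3.TX
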