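import Pool.Agent.MP_ee8c61_ag.TX.Stmt
import Pool.Agent.MP_ee8c61_ag.TW.Spec

/-! Deformation to the normal cone: the statements. -/

namespace Pool.Agent.MP_ee8c61_ag.N3.TX

open H59 hiding pd
open MvPolynomial M3 N3.M3E N3.TC
open M3B1 (pd)
open Pool.Agent.MP_ee8c61_ag.TC (Indep red SPert)
open Pool.Agent.MP_ee8c61_ag.TX (up Homog)

noncomputable section

/-- The new variable. -/
abbrev tt (N : ℕ) : KK (N + 1) := M3.ip (N + 1) (X 0)

/-- The Jacobian determinant of the polynomial coordinates. -/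
abbrev jc {N : ℕ} (D : Fin N → Derivation ℂ (KK N) (KK N)) : KK N :=
  (Matrix.of fun k i => D i (M3.ip N (X k))).det

/-- The derivations lower the order by at most one, and only `D l0` lowers it. -/
def Bd {N : ℕ} (d : DV (KK N)) (D : Fin N → Derivation ℂ (KK N) (KK N)) (l0 : Fin N) : Prop :=
  ∀ l m, ∀ g ∈ d.F m, D l g ∈ d.F (m - if l = l0 then 1 else 0)

/-! ### Without models -/

structure Up (N : ℕ) : Prop where
  ip : ∀ p : M3.Po N, up (M3.ip N p) = M3.ip (N + 1) (rename Fin.succ p)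
  alg : ∀ c : ℂ, up (algebraMap ℂ (KK N) c) = algebraMap ℂ (KK (N + 1)) c
  poly : ∀ p : M3.Po (N + 1), ∃ P : Polynomial (KK N), (∀ k, P.coeff k ∈ (M3.ip N).range) ∧
    M3.ip (N + 1) p = P.eval₂ up (tt N)
  tr : ∀ P : Polynomial (KK N), P.eval₂ up (tt N) = 0 → P = 0
  chain : ∀ (δ : Derivation ℂ (KK (N + 1)) (KK (N + 1))) (g : KK N),
    δ (up g) = ∑ k, δ (M3.ip (N + 1) (X k.succ)) * up (pd N k g)

def SUp : Prop := ∀ N, Up N

/-- The Gauss extension of a valuation and of derivations. -/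
def SGs : Prop := ∀ (N : ℕ) (d : DV (KK N)) (D : Fin N → Derivation ℂ (KK N) (KK N)) (l0 : Fin N),
  Bd d D l0 → ∃ (d' : DV (KK (N + 1))) (D' : Fin (N + 1) → Derivation ℂ (KK (N + 1)) (KK (N + 1))),
    (∀ (P : Polynomial (KK N)) (m : ℤ), P.eval₂ up (tt N) ∈ d'.F m ↔ ∀ k, P.coeff k ∈ d.F m) ∧
    Bd d' D' l0.succ ∧ jc D' = up (jc D)

def OfGs : Prop := SUp → SGs

/-- Functions that are regular where `F` does not vanish. -/
def SDen : Prop := ∀ (N : ℕ) (F : M3.Po N) (g : KK N), F ≠ 0 →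
  (∀ V : Vl N, (∀ p, M3.ip N p ∈ V) → (M3.ip N F)⁻¹ ∈ V → g ∈ V) →
  ∃ (e : ℕ) (p : M3.Po N), M3.ip N F ^ e * g = M3.ip N p

/-- The restriction of a discrete valuation ring to a subfield. -/
def SDv : Prop := ∀ (K L : Type) [Field K] [Field L] (φ : K →+* L) (O : ValuationSubring L)
  (g : K), IsDiscreteValuationRing O → g ≠ 0 → O.valuation (φ g) < 1 →
  IsDiscreteValuationRing (O.comap φ)

/-- One more independent residue. -/
def STau : Prop := ∀ (n : ℕ) (O : Vl (n + 2)) (y : Fin n → KK (n + 1)) (g : KK (n + 1)),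
  IsDiscreteValuationRing O → Homog O → (∀ p, M3.ip _ p ∈ O) → g ≠ 0 → O.valuation (up g) < 1 →
  (∀ P : M3.Po n, P ≠ 0 → Un O (up (aeval y P))) →
  ∃ y' : Fin (n + 1) → KK (n + 2), ∀ P : M3.Po (n + 1), P ≠ 0 → Un O (aeval y' P)

def OfTau : Prop := SUp → STau

/-! ### Over one base -/

section Base

variable [Base]

/-- Sections of multiples of the log canonical divisor have logarithmic poles along every
divisor over the base. -/
def SDis : Prop := ∀ (N : ℕ) (f : Po N) (M : Mod N) (m : ℕ) (H : KK N) (d : DV (KK N))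
  (D : Fin N → Derivation ℂ (KK N) (KK N)) (l0 : Fin N), M.OK f → H ∈ M.H (m • (M.kk + 1)) →
  Ov d.O → Bd d D l0 → H * jc D ^ m ∈ d.F (-m)

def OfDis : Prop := EOut → SDis

/-- The residue is a section on the divisor. -/
def SCh2 : Prop := ∀ (N r q : ℕ) (F : Fin r → M3.Po N) (j : Fin r) (f : Po N) (M : Mod N) (o : M.J)
  (P : M.J → ℤ) (u : Fin q → KK N) (m c : ℕ) (t : KK N), M.OK f →
  (∀ i, M3.ip N (F i) / M3.ip N (F j) ∈ Rb N) → 0 ≤ P → P o = 0 → (∀ i, u i ∈ M.H P) →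
  TW.LogRes F j (M.v o).O u m c t →
  t / M3.ip N (F j) ^ c ∈ M.R o (m • (M.kk + M.e o + red P)) ∧ t ≠ 0 ∧
    (M.v o).v (t / M3.ip N (F j) ^ c) = -(m * (M.k o + 1))

def OfCh2 : Prop := EOut → SCh2

/-- Lifting. -/
def SLf2 : Prop := ∀ (N : ℕ) (f : Po N) (M : Mod N) (o : M.J) (P : M.J → ℤ) (m : ℕ) (σ : KK N),
  M.OK f → M.Free P → 0 ≤ P → P o = 0 → 0 < m → σ ∈ M.R o (m • (M.kk + M.e o + red P)) →
  ∃ H ∈ M.H (m • (M.kk + 1)), H - σ ∈ (M.v o).F (1 - m * (M.k o + 1))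

def OfLf2 : Prop := EOut → SLift → SAmp → SLf2

/-- Global sections with independent restrictions give a root. -/
def SAb2 : Prop := ∀ (n : ℕ) (f : Po (n + 1)) (la : ℚ) (b : Polynomial ℂ)
  (β : Fin (n + 1) → PX (n + 1) (KK (n + 1))) (Q : PX (n + 1) (KK (n + 1))) (M : Mod (n + 1))
  (o : M.J) (m : ℕ) (s₀ g₀ : KK (n + 1)) (s g : Fin n → KK (n + 1)),
  BSd f b β Q → M.OK f → M.ex la o = 0 → 0 < m → s₀ ≠ 0 → (M.v o).v s₀ = -(m * (M.k o + 1)) →
  g₀ ∈ M.H (m • (M.kk + 1)) → g₀ - s₀ ∈ (M.v o).F (1 - m * (M.k o + 1)) →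
  (∀ i, g i ∈ M.H (m • (M.kk + 1))) → (∀ i, g i - s i ∈ (M.v o).F (1 - m * (M.k o + 1))) →
  Indep (M.v o) (fun i => s i / s₀) → b.eval (-(la : ℂ)) = 0

def OfAb2 : Prop := EOut → SR1 → SNk → SPert → SAb2

/-- The base is the chart `j` of the blow-up. -/
def Ch {N r : ℕ} (F : Fin r → M3.Po N) (j : Fin r) : Prop :=
  ∀ V, Ov V ↔ (∀ p, M3.ip N p ∈ V) ∧ ∀ i, M3.ip N (F i) / M3.ip N (F j) ∈ V

end Base

/-! ### Two bases -/

/-- The coefficients of a section are sections. -/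
def SDes : Prop := ∀ (N r : ℕ) (F : Fin r → M3.Po N) (j : Fin r) (B B' : Base) (M : Mod N)
  (W : Mod (N + 1)) (m : ℕ) (H : KK (N + 1)), F j ≠ 0 → @Ch B _ _ F j →
  @Ch B' _ _ (fun i => rename Fin.succ (F i)) j → @Mod.OK B _ M (@pp B N (F j)) →
  @Mod.OK B' _ W (@pp B' _ (X 0 * rename Fin.succ (F j))) → H ∈ @Mod.H B' _ W (m • (W.kk + 1)) →
  ∃ (a : ℕ) (P : Polynomial (KK N)), H * tt N ^ (a + m) = P.eval₂ up (tt N) ∧
    ∀ k, P.coeff k ∈ @Mod.H B _ M (m • (M.kk + 1))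

def OfDes : Prop := (∀ _ : Base, EOut) → SUp → SGs → SDen → (∀ _ : Base, SDis) → SDes

/-- The discrepancy of an extension of a divisor. -/
def SRev : Prop := ∀ (N : ℕ) (B B' : Base) (f : @Po B N) (f' : @Po B' (N + 1)) (M : Mod N)
  (W : Mod (N + 1)) (o : M.J) (o' : W.J), @Mod.OK B _ M f → @Mod.OK B' _ W f' →
  (M.v o).O = (W.v o').O.comap up → ∃ e : ℤ, 0 < e ∧ (∀ g, (W.v o').v (up g) = e * (M.v o).v g) ∧
    (W.v o').v (tt N) + e * (M.k o + 1) ≤ W.k o' + 1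

def OfRev : Prop := (∀ _ : Base, EOut) → SUp → SRev

open TW in
/-- The theorem. -/
def Main : Prop := ∀ (N r q : ℕ) (f : Fin r → MvPolynomial (Fin N) ℂ) (b : Polynomial ℂ)
  (j : Fin r) (O : ValuationSubring (K (N + 1))) (u : Fin q → K (N + 1)) (m c : ℕ)
  (t : Fin N → K N), H10.IsBS f b → IsDiscreteValuationRing O → Homog O → (∀ p, rf p ∈ O) →
  (∀ i, up (rf (f i) / rf (f j)) ∈ O) → f j ≠ 0 → O.valuation (up (rf (f j))) < 1 →
  (∀ i, u i ∈ O ∧ ∃ (e : ℕ) (p : MvPolynomial (Fin (N + 1)) ℂ),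
    u i * (rf (X 0) * up (rf (f j))) ^ e = rf p) → 0 < m →
  (∀ (d : ℕ) (P : MvPolynomial (Fin N) ℂ), P ≠ 0 → P.IsHomogeneous d →
    O.valuation (up (aeval t P)) = 1) →
  (∀ l, LogRes (fun i => rename Fin.succ (f i)) j O u m c (up (t l) / rf (X 0) ^ m)) →
  b.eval (-((c : ℂ) / m)) = 0

def OfMain : Prop := SBas → (∀ _ : Base, EOut) → (∀ _ : Base, SReal) → SUp → SDv → STau →
  (∀ _ : Base, SCh2) → (∀ _ : Base, SLf2) → (∀ _ : Base, SAb2) → SDes → SRev → Main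

end

end Pool.Agent.MP_ee8c61_ag.N3.TX
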