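import Pool.Agent.MP_ee8c61_ag.TW.Stmt

/-!
Valuations of the field of rational functions in one more variable that are homogeneous in it.
-/

namespace Pool.Agent.MP_ee8c61_ag.TX

open MvPolynomial TW

variable {N : ℕ}

/-- Rational functions of `x 1, ..., x N` as rational functions of `x 0, ..., x N`. -/
noncomputable def up : K N →+* K (N + 1) :=
  IsFractionRing.map (j := (rename Fin.succ : MvPolynomial (Fin N) ℂ →ₐ[ℂ] _).toRingHom)
    (rename_injective _ (Fin.succ_injective N))

/-- The order of a polynomial in `x 0` is the least order of its terms. -/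
def Homog (O : ValuationSubring (K (N + 1))) : Prop :=
  ∀ (p : Polynomial (K N)) (k : ℕ),
    O.valuation (up (p.coeff k) * rf (X 0) ^ k) ≤ O.valuation (p.eval₂ up (rf (X 0)))

end Pool.Agent.MP_ee8c61_ag.TX
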